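import Pool.Agent.Work.MP_a7fe73_sq.Circ

/-!
# Quadratic connectivity: the assembly
-/

set_option autoImplicit false
set_option linter.unusedSectionVars false

open Finset Equiv

namespace Pool.A7S

open Pool.Agent.Work.MP_a7fe73_co

variable {V : Type} [DecidableEq V] [Fintype V]

theorem exists_inj {I : Finset V} {s : ℕ} (h : I.card = s) :
    ∃ x : Fin s → V, Function.Injective x ∧ ∀ v, v ∈ I ↔ ∃ k, x k = v := by
  subst h
  refine ⟨fun k => (I.equivFin.symm k : V), ?_, ?_⟩
  · intro i j hij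
    exact I.equivFin.symm.injective (Subtype.ext hij)
  · intro v
    constructor
    · intro hv
      exact ⟨I.equivFin ⟨v, hv⟩, by simp⟩
    · rintro ⟨k, rfl⟩
      exact (I.equivFin.symm k).2

/-- The pieces of the wires. -/
def pieces {s : ℕ} (o : Fin s) (g : Fin s → Fin 4 → V) (T : List (Fin s)) (Ps : List (List V))
    (k : Fin s) : List (List V) :=
  if k = o then (T.map fun l => [g l 0, g l 1]) ++ Ps else [[g k 2, g k 3]]

theorem single {D : Digraph V} {a k : ℕ}
    (hcard : k + 1 ≤ Fintype.card V)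
    (hst : ∀ X : Finset V, X.card < k → ∀ u v : V, u ∉ X → v ∉ X →
      Relation.ReflTransGen (fun a b => a ∉ X ∧ b ∉ X ∧ D.Adj a b) u v)
    (hal : al (digon D) univ ≤ a) (hk : 8 * a ^ 2 ≤ k) :
    ∃ σ : Perm V, (∀ u v, σ.SameCycle u v) ∧ ∀ v, D.Adj v (σ v) := by
  classical
  have hVne : Nonempty V := Fintype.card_pos_iff.1 (by omega)
  set G := digon D with hG
  obtain ⟨s, Q, I, J, hs1, hsa, -, -, -, hQI, hQJ, hIJ, hI', hJ', hIc, hJc, halQ, hQc⟩ :=
    levels G a univ hal (by rw [card_univ]; nlinarith)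
  set o : Fin s := ⟨0, by omega⟩ with ho
  obtain ⟨x, hxinj, hxI⟩ := exists_inj hIc
  obtain ⟨y, hyinj, hyJ⟩ := exists_inj hJc
  set T : Finset (Fin s) := univ.erase o with hT
  have hTc : T.card = s - 1 := by
    rw [hT, card_erase_of_mem (mem_univ _), card_univ, Fintype.card_fin]
  set X : Finset V := Q ∪ (I ∪ J) with hX
  have hXc : X.card ≤ Q.card + 2 * s := by
    have h1 := card_union_le Q (I ∪ J)
    have h2 := card_union_le I J
    rw [hX]
    omega
  obtain ⟨t, rfl⟩ : ∃ t, a = s + t := ⟨a - s, by omega⟩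
  have hQc' : 2 * Q.card ≤ 2 * s * t + t ^ 2 + t := by nlinarith
  obtain ⟨g, hg1, hg2, hg3⟩ := switches G hal X T (by
    rw [hTc]
    obtain ⟨r, rfl⟩ : ∃ r, s = r + 1 := ⟨s - 1, by omega⟩
    have e : r + 1 - 1 = r := by omega
    rw [e]
    nlinarith)
  obtain ⟨Ps, hPs, hPnd, hPcov, hPlen⟩ := path_cover G Q
  have hPlen' : Ps.length ≤ s + t := hPlen.trans ((al_mono (subset_univ Q)).trans hal)
  set Bs : Fin s → List (List V) := pieces o g T.toList Ps with hBs
  have hBo : Bs o = (T.toList.map fun l => [g l 0, g l 1]) ++ Ps := by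
    rw [hBs, pieces, if_pos rfl]
  have hBk : ∀ k, k ≠ o → Bs k = [[g k 2, g k 3]] := by
    intro k hk
    rw [hBs, pieces, if_neg hk]
  have hT' : ∀ k, k ∈ T ↔ k ≠ o := by
    intro k
    rw [hT, mem_erase]
    simp
  -- members of the pieces
  have hmemo : ∀ v, v ∈ (Bs o).flatten ↔ (∃ l, l ≠ o ∧ (v = g l 0 ∨ v = g l 1)) ∨ v ∈ Q := by
    intro v
    rw [hBo, List.flatten_append, List.mem_append, hPcov, List.mem_flatten]
    refine or_congr ?_ Iff.rfl
    constructor
    · rintro ⟨B, hB, hv⟩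
      rw [List.mem_map] at hB
      obtain ⟨l, hl, rfl⟩ := hB
      rw [mem_toList, hT'] at hl
      exact ⟨l, hl, by simpa using hv⟩
    · rintro ⟨l, hl, hv⟩
      refine ⟨[g l 0, g l 1], ?_, by simpa using hv⟩
      rw [List.mem_map]
      exact ⟨l, by rw [mem_toList, hT']; exact hl, rfl⟩
  have hmemk : ∀ k, k ≠ o → ∀ v, v ∈ (Bs k).flatten ↔ v = g k 2 ∨ v = g k 3 := by
    intro k hk v
    rw [hBk k hk]
    simp
  have hgX : ∀ k, k ≠ o → ∀ c, g k c ∉ X := fun k hk => hg2 k ((hT' k).2 hk)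
  have hgQ : ∀ k, k ≠ o → ∀ c, g k c ∉ Q := fun k hk c h =>
    hgX k hk c (mem_union_left _ h)
  have hginj : ∀ k, k ≠ o → ∀ l, l ≠ o → ∀ c d, g k c = g l d → k = l ∧ c = d :=
    fun k hk l hl => hg1 k ((hT' k).2 hk) l ((hT' l).2 hl)
  have hnotIJ : ∀ k v, v ∈ (Bs k).flatten → v ∉ I ∪ J := by
    intro k v hv hvIJ
    have hQIJ : v ∉ Q := by
      intro h
      rcases mem_union.1 hvIJ with h1 | h1
      · exact disjoint_left.1 hQI h h1
      · exact disjoint_left.1 hQJ h h1
    have hvX : v ∈ X := mem_union_right _ hvIJ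
    by_cases hk : k = o
    · rw [hk, hmemo] at hv
      rcases hv with ⟨l, hl, h | h⟩ | h
      · exact hgX l hl 0 (h ▸ hvX)
      · exact hgX l hl 1 (h ▸ hvX)
      · exact hQIJ h
    · rw [hmemk k hk] at hv
      rcases hv with h | h
      · exact hgX k hk 2 (h ▸ hvX)
      · exact hgX k hk 3 (h ▸ hvX)
  -- the reserved set
  set R : Finset V := X ∪ T.biUnion (fun k => univ.image (g k)) with hR
  have hRc : R.card ≤ Q.card + 2 * s + (s - 1) * 4 := by
    refine (card_union_le _ _).trans (add_le_add hXc ?_)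
    rw [← hTc]
    refine card_biUnion_le_card_mul _ _ _ fun i _ => ?_
    exact card_image_le.trans (by simp)
  have hgR : ∀ k, k ≠ o → ∀ c, g k c ∈ R := by
    intro k hk c
    rw [hR, mem_union, mem_biUnion]
    exact Or.inr ⟨k, (hT' k).2 hk, mem_image_of_mem _ (mem_univ c)⟩
  have hxR : ∀ k, x k ∈ R := fun k => mem_union_left _ (mem_union_right _
    (mem_union_left _ ((hxI _).2 ⟨k, rfl⟩)))
  have hyR : ∀ k, y k ∈ R := fun k => mem_union_left _ (mem_union_right _
    (mem_union_right _ ((hyJ _).2 ⟨k, rfl⟩)))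
  have hxIJ : ∀ k, x k ∈ I ∪ J := fun k => mem_union_left _ ((hxI _).2 ⟨k, rfl⟩)
  have hyIJ : ∀ k, y k ∈ I ∪ J := fun k => mem_union_right _ ((hyJ _).2 ⟨k, rfl⟩)
  have hxy : ∀ k l, x k ≠ y l := by
    intro k l h
    exact disjoint_left.1 hIJ ((hxI _).2 ⟨k, rfl⟩) (h ▸ (hyJ _).2 ⟨l, rfl⟩)
  have hBR : ∀ k, ∀ v ∈ (Bs k).flatten, v ∈ R := by
    intro k v hv
    by_cases hk : k = o
    · rw [hk, hmemo] at hv
      rcases hv with ⟨l, hl, h | h⟩ | h
      · rw [h]; exact hgR l hl 0
      · rw [h]; exact hgR l hl 1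
      · exact mem_union_left _ (mem_union_left _ h)
    · rw [hmemk k hk] at hv
      rcases hv with h | h
      · rw [h]; exact hgR k hk 2
      · rw [h]; exact hgR k hk 3
  have hGD : ∀ l : List V, l.IsChain G.Adj → l.IsChain D.Adj := fun l hl =>
    hl.imp (fun a b h => h.2.1)
  have hBc : ∀ k, ∀ B ∈ Bs k, B ≠ [] ∧ B.IsChain D.Adj := by
    intro k B hB
    by_cases hk : k = o
    · rw [hk, hBo, List.mem_append, List.mem_map] at hB
      rcases hB with ⟨l, hl, rfl⟩ | hB
      · rw [mem_toList] at hl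
        refine ⟨by simp, ?_⟩
        rw [List.isChain_cons_cons]
        exact ⟨(hg3 l hl).1.2.1, List.isChain_singleton _⟩
      · exact ⟨(hPs B hB).1, hGD B (hPs B hB).2⟩
    · rw [hBk k hk, List.mem_singleton] at hB
      subst hB
      refine ⟨by simp, ?_⟩
      rw [List.isChain_cons_cons]
      exact ⟨(hg3 k ((hT' k).2 hk)).2.2.2.2.1, List.isChain_singleton _⟩
  have hBnd : ∀ k, ((Bs k).flatten).Nodup := by
    intro k
    by_cases hk : k = o
    · rw [hk, hBo, List.flatten_append, List.nodup_append]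
      refine ⟨?_, hPnd, ?_⟩
      · rw [List.nodup_flatten]
        constructor
        · intro B hB
          rw [List.mem_map] at hB
          obtain ⟨l, hl, rfl⟩ := hB
          rw [mem_toList, hT'] at hl
          simp only [List.nodup_cons, List.mem_singleton, List.not_mem_nil, not_false_eq_true,
            List.nodup_nil, and_true]
          intro h
          have := (hginj l hl l hl 0 1 h).2
          exact absurd this (by decide)
        · rw [List.pairwise_map]
          have h1 : T.toList.Pairwise (fun i j => i ≠ j ∧ i ∈ T.toList ∧ j ∈ T.toList) := by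
            have := T.nodup_toList
            rw [List.Nodup, List.pairwise_iff_forall_sublist] at this
            rw [List.pairwise_iff_forall_sublist]
            intro i j h
            exact ⟨this h, h.subset (by simp), h.subset (by simp)⟩
          refine h1.imp ?_
          rintro i j ⟨hij, hi, hj⟩ v hv hv'
          rw [mem_toList, hT'] at hi hj
          simp only [List.mem_cons, List.not_mem_nil, or_false] at hv hv'
          rcases hv with h | h <;> rcases hv' with h' | h' <;> rw [h] at h' <;>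
            exact hij (hginj _ hi _ hj _ _ h').1
      · rintro v hv w hw rfl
        rw [List.mem_flatten] at hv
        obtain ⟨B, hB, hvB⟩ := hv
        rw [List.mem_map] at hB
        obtain ⟨l, hl, rfl⟩ := hB
        rw [mem_toList, hT'] at hl
        rw [hPcov] at hw
        simp only [List.mem_cons, List.not_mem_nil, or_false] at hvB
        rcases hvB with h | h
        · exact hgQ l hl 0 (h ▸ hw)
        · exact hgQ l hl 1 (h ▸ hw)
    · rw [hBk k hk]
      simp only [List.flatten_cons, List.flatten_nil, List.append_nil, List.nodup_cons,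
        List.mem_singleton, List.not_mem_nil, not_false_eq_true, List.nodup_nil, and_true]
      intro h
      exact absurd (hginj k hk k hk 2 3 h).2 (by decide)
  have hnd : ∀ k, (x k :: ((Bs k).flatten ++ [y k])).Nodup := by
    intro k
    rw [List.nodup_cons, List.mem_append, List.mem_singleton, List.nodup_append]
    refine ⟨?_, hBnd k, by simp, ?_⟩
    · rintro (h | h)
      · exact hnotIJ k _ h (hxIJ k)
      · exact hxy k k h
    · rintro v hv w hw rfl
      rw [List.mem_singleton] at hw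
      rw [hw] at hv
      exact hnotIJ k _ hv (hyIJ k)
  have hdis : ∀ k l v, v ∈ (Bs k).flatten → v ∈ (Bs l).flatten → k = l := by
    have key : ∀ k l v, k = o → l ≠ o → v ∈ (Bs k).flatten → v ∈ (Bs l).flatten → False := by
      intro k l v hk hl hv hv'
      rw [hk, hmemo] at hv
      rw [hmemk l hl] at hv'
      rcases hv with ⟨j, hj, h | h⟩ | h <;> rcases hv' with h' | h' <;> rw [h'] at h
      · exact absurd (hginj l hl j hj 2 0 h).2 (by decide)
      · exact absurd (hginj l hl j hj 3 0 h).2 (by decide)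
      · exact absurd (hginj l hl j hj 2 1 h).2 (by decide)
      · exact absurd (hginj l hl j hj 3 1 h).2 (by decide)
      · exact hgQ l hl 2 h
      · exact hgQ l hl 3 h
    intro k l v hv hv'
    by_cases hk : k = o <;> by_cases hl : l = o
    · rw [hk, hl]
    · exact absurd (key k l v hk hl hv hv') id
    · exact absurd (key l k v hl hk hv' hv) id
    · rw [hmemk k hk] at hv
      rw [hmemk l hl] at hv'
      rcases hv with h | h <;> rcases hv' with h' | h' <;> rw [h] at h' <;>
        exact (hginj _ hk _ hl _ _ h').1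
  -- the number of links
  have hsum : ∑ k : Fin s, ((Bs k).length + 1) = (s - 1 + Ps.length + 1) + (s - 1) * 2 := by
    rw [← add_sum_erase univ _ (mem_univ o), ← hT]
    congr 1
    · rw [hBo, List.length_append, List.length_map, length_toList, hTc]
    · rw [sum_congr rfl (g := fun _ => 2) (fun k hk => by rw [hBk k ((hT' k).1 hk)]; simp),
        sum_const, hTc, smul_eq_mul]
  obtain ⟨M, hM1, hM2, -⟩ := wires hst hal R x y Bs hxR hyR hBR hBc hnd hdis univ (by
    rw [hsum]
    obtain ⟨r, rfl⟩ : ∃ r, s = r + 1 := ⟨s - 1, by omega⟩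
    have e : r + 1 - 1 = r := by omega
    have e2 : 2 * (r + 1 + t) - 2 = 2 * (r + t) := by omega
    rw [e] at hRc ⊢
    rw [e2]
    have h5 : (r + Ps.length + 1 + r * 2) * (2 * (r + t)) ≤
        (r + (r + 1 + t) + 1 + r * 2) * (2 * (r + t)) := Nat.mul_le_mul_right _ (by omega)
    nlinarith)
  have hM1' := fun k => hM1 k (mem_univ k)
  have hM2' := fun k l => hM2 k (mem_univ k) l (mem_univ l)
  set U : Finset V := univ.biUnion fun k => (M k).toFinset with hU
  have hUM : ∀ v, v ∈ U ↔ ∃ k, v ∈ M k := by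
    intro v
    rw [hU, mem_biUnion]
    simp
  have hMIJ : ∀ k, ∀ v ∈ M k, v ∉ I ∪ J := by
    intro k v hv hvIJ
    rcases (hM1' k).mem v hv with h | h
    · exact hnotIJ k v h hvIJ
    · exact h (mem_union_left _ (mem_union_right _ hvIJ))
  have hQU : Q ⊆ U := by
    intro v hv
    rw [hUM]
    exact ⟨o, (hM1' o).piece_mem ((hmemo v).2 (Or.inr hv))⟩
  obtain ⟨Ts, hTs, hTs1, hTs2, hTs3⟩ := threads (G := G) (s := s) (W := univ \ U) (I := I)
    (J := J) ((al_mono (sdiff_subset_sdiff (Subset.refl _) hQU)).trans halQ) (by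
      intro v hv
      rw [mem_sdiff, hUM]
      refine ⟨mem_univ _, ?_⟩
      rintro ⟨k, hk⟩
      exact hMIJ k v hk (mem_union_left _ hv)) hIJ hI' hJ' hIc
  have hTsU : ∀ P ∈ Ts, ∀ v ∈ P, v ∉ U := by
    intro P hP v hv
    have h1 := (hTs.mem v).1 (List.mem_flatten.2 ⟨P, hP, hv⟩)
    exact (mem_sdiff.1 h1).2
  -- the family
  set Fam : Set (List V) := {l | l ∈ Ts ∨ ∃ k, l = x k :: (M k ++ [y k])} with hFam
  have hFam1 : ∀ l ∈ Fam, l.Nodup := by
    rintro l (hl | ⟨k, rfl⟩)
    · have := hTs.nodup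
      rw [List.nodup_flatten] at this
      exact this.1 l hl
    · rw [List.nodup_cons, List.mem_append, List.mem_singleton, List.nodup_append]
      refine ⟨?_, (hM1' k).nodup, by simp, ?_⟩
      · rintro (h | h)
        · exact hMIJ k _ h (hxIJ k)
        · exact hxy k k h
      · rintro v hv w hw rfl
        rw [List.mem_singleton] at hw
        rw [hw] at hv
        exact hMIJ k _ hv (hyIJ k)
  have hdropW : ∀ k, (x k :: (M k ++ [y k])).dropLast = x k :: M k := by
    intro k
    rw [← List.cons_append, List.dropLast_concat]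
  have hFam2 : ∀ v, ∃ l ∈ Fam, v ∈ l.dropLast := by
    intro v
    by_cases hvU : v ∈ U
    · obtain ⟨k, hk⟩ := (hUM v).1 hvU
      refine ⟨_, Or.inr ⟨k, rfl⟩, ?_⟩
      rw [hdropW]
      exact List.mem_cons_of_mem _ hk
    · by_cases hvI : v ∈ I
      · obtain ⟨k, rfl⟩ := (hxI v).1 hvI
        refine ⟨_, Or.inr ⟨k, rfl⟩, ?_⟩
        rw [hdropW]
        exact List.mem_cons_self
      · have h1 := (hTs.mem v).2 (mem_sdiff.2 ⟨mem_univ _, hvU⟩)
        rw [List.mem_flatten] at h1
        obtain ⟨P, hP, hvP⟩ := h1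
        obtain ⟨z, hz, hzP, hall⟩ := hTs1 P hP
        refine ⟨P, Or.inl hP, ?_⟩
        rcases hall v hvP with h | h
        · exact absurd (h ▸ hz) hvI
        · exact h
  have hFam3 : ∀ l ∈ Fam, ∀ l' ∈ Fam, ∀ b, b ∈ l.tail → b ∈ l'.tail → l = l' := by
    have key : ∀ P ∈ Ts, ∀ k, ∀ b, b ∈ P.tail → b ∈ (x k :: (M k ++ [y k])).tail → False := by
      intro P hP k b hb hb'
      rw [List.tail_cons, List.mem_append, List.mem_singleton] at hb'
      rcases hb' with h | h
      · exact hTsU P hP b (List.mem_of_mem_tail hb) ((hUM b).2 ⟨k, h⟩)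
      · exact hTs3 P hP b hb ((hyJ b).2 ⟨k, h.symm⟩)
    rintro l (hl | ⟨k, rfl⟩) l' (hl' | ⟨k', rfl⟩) b hb hb'
    · have h1 := hTs.nodup
      rw [List.nodup_flatten] at h1
      by_contra hne
      have hsym : Std.Symm (fun P P' : List V => List.Disjoint P P') :=
        ⟨fun _ _ h => h.symm⟩
      exact h1.2.forall hl hl' hne (List.mem_of_mem_tail hb) (List.mem_of_mem_tail hb')
    · exact absurd (key l hl k' b hb hb') id
    · exact absurd (key l' hl' k b hb' hb) id
    · have hkk : k = k' := by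
        rw [List.tail_cons, List.mem_append, List.mem_singleton] at hb hb'
        rcases hb with h | h <;> rcases hb' with h' | h'
        · exact hM2' k k' b h h'
        · exact absurd (h' ▸ hyIJ k') (hMIJ k b h)
        · exact absurd (h ▸ hyIJ k) (hMIJ k' b h')
        · exact hyinj (h.symm.trans h')
      rw [hkk]
  obtain ⟨σ, hσ⟩ := exists_perm hFam1 hFam2 hFam3
  have hFamc : ∀ l ∈ Fam, l.IsChain D.Adj := by
    rintro l (hl | ⟨k, rfl⟩)
    · exact hGD l (hTs.chain l hl)
    · exact (hM1' k).chain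
  have harc : ∀ v, D.Adj v (σ v) := by
    intro v
    obtain ⟨l, hl, hv⟩ := hFam2 v
    obtain ⟨b, l1, l2, e⟩ := cs_of_dropLast hv
    have h1 := hFamc l hl
    rw [e] at h1
    rw [hσ l hl l1 v b l2 e]
    exact chain_cs h1
  have hσc : ∀ l ∈ Fam, l.IsChain (fun a b => σ a = b) := fun l hl =>
    chain_of_cs l (hσ l hl)
  have hsame : ∀ l ∈ Fam, ∀ u ∈ l, ∀ v ∈ l, σ.SameCycle u v := fun l hl u hu v hv =>
    same_of_chain (hσc l hl) hu hv
  -- images of the members of the switches
  have hpc : ∀ k, ∀ u w, [u, w] ∈ Bs k → σ u = w ∧ u ∈ M k := by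
    intro k u w hB
    obtain ⟨l1, l2, e⟩ := (hM1' k).piece _ hB
    constructor
    · refine hσ _ (Or.inr ⟨k, rfl⟩) (x k :: l1) u w (l2 ++ [y k]) ?_
      rw [e]
      simp
    · rw [e]
      simp
  have hg01 : ∀ k, k ≠ o → σ (g k 0) = g k 1 ∧ g k 0 ∈ M o := by
    intro k hk
    refine hpc o _ _ ?_
    rw [hBo, List.mem_append, List.mem_map]
    exact Or.inl ⟨k, by rw [mem_toList, hT']; exact hk, rfl⟩
  have hg23 : ∀ k, k ≠ o → σ (g k 2) = g k 3 ∧ g k 2 ∈ M k := by
    intro k hk
    refine hpc k _ _ ?_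
    rw [hBk k hk]
    exact List.mem_singleton_self _
  obtain ⟨τ, hτ1, -, hτ3, hτ4⟩ := merge_all σ harc (fun k => g k 0) (fun k => g k 2) T (by
    intro k hk l hl
    rw [hT'] at hk hl
    refine ⟨fun h => (hginj k hk l hl _ _ h).1, fun h => (hginj k hk l hl _ _ h).1, fun h => ?_⟩
    exact absurd (hginj k hk l hl 0 2 h).2 (by decide)) (by
    intro k hk
    have h1 := hg3 k hk
    rw [hT'] at hk
    rw [(hg01 k hk).1, (hg23 k hk).1]
    exact ⟨h1.2.1.2.1, h1.2.2.1.2.1⟩)
  have hwire : ∀ k, ∀ v ∈ M k, τ.SameCycle (x k) v := by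
    intro k v hv
    refine hτ4 _ _ (hsame _ (Or.inr ⟨k, rfl⟩) _ (by simp) _ (by simp [hv]))
  have hroot : ∀ k, τ.SameCycle (x o) (x k) := by
    intro k
    by_cases hk : k = o
    · rw [hk]
    · have h1 := hτ3 k ((hT' k).2 hk)
      exact ((hwire o _ (hg01 k hk).2).trans h1).trans (hwire k _ (hg23 k hk).2).symm
  have hall : ∀ v, τ.SameCycle (x o) v := by
    intro v
    by_cases hvU : v ∈ U
    · obtain ⟨k, hk⟩ := (hUM v).1 hvU
      exact (hroot k).trans (hwire k v hk)
    · have h1 := (hTs.mem v).2 (mem_sdiff.2 ⟨mem_univ _, hvU⟩)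
      rw [List.mem_flatten] at h1
      obtain ⟨P, hP, hvP⟩ := h1
      obtain ⟨z, hz, hzP, -⟩ := hTs1 P hP
      obtain ⟨k, rfl⟩ := (hxI z).1 hz
      exact (hroot k).trans (hτ4 _ _ (hsame P (Or.inl hP) _ hzP _ hvP))
  exact ⟨τ, fun u v => (hall u).symm.trans (hall v), hτ1⟩

end Pool.A7S
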