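import Pool.Agent.Work.MP_a7fe73_sq.Wire

/-!
# Circuit factors from families of paths, and the merging of their circuits
-/

set_option autoImplicit false
set_option linter.unusedSectionVars false

open Finset Equiv

namespace Pool.A7S

open Pool.Agent.Work.MP_a7fe73_co

variable {V : Type} [DecidableEq V] [Fintype V]

/-- A family of paths such that every vertex is a non-last member of some path and a non-first
member of at most one path gives a permutation. -/
theorem exists_perm {Fam : Set (List V)} (h1 : ∀ l ∈ Fam, l.Nodup)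
    (h2 : ∀ v, ∃ l ∈ Fam, v ∈ l.dropLast)
    (h3 : ∀ l ∈ Fam, ∀ l' ∈ Fam, ∀ b, b ∈ l.tail → b ∈ l'.tail → l = l') :
    ∃ σ : Perm V, ∀ l ∈ Fam, ∀ l1 a b l2, l = l1 ++ a :: b :: l2 → σ a = b := by
  classical
  have uniq : ∀ l ∈ Fam, ∀ l' ∈ Fam, ∀ l1 a b l2 l1' a' l2', l = l1 ++ a :: b :: l2 →
      l' = l1' ++ a' :: b :: l2' → a = a' := by
    intro l hl l' hl' l1 a b l2 l1' a' l2' e e'
    have hll : l = l' := by
      refine h3 l hl l' hl' b ?_ ?_
      · rw [e]; exact tail_of_cs
      · rw [e']; exact tail_of_cs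
    have e3 : (l1 ++ [a]) ++ b :: l2 = (l1' ++ [a']) ++ b :: l2' := by
      simpa using e.symm.trans (hll.trans e')
    have hnd : ((l1 ++ [a]) ++ b :: l2).Nodup := by
      have := h1 l hl
      rw [e] at this
      simpa using this
    rw [List.nodup_append] at hnd
    have hb1 : b ∉ l1 ++ [a] := fun h => hnd.2.2 b h b (by simp) rfl
    have hb2 : b ∉ l2 := (List.nodup_cons.1 hnd.2.1).1
    have h4 := (List.append_cons_inj_of_notMem hb1 hb2).1 e3
    have h5 := congrArg List.getLast? h4.1
    simpa using h5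
  have hex : ∀ v, ∃ w, ∃ l ∈ Fam, ∃ l1 l2, l = l1 ++ v :: w :: l2 := by
    intro v
    obtain ⟨l, hl, hv⟩ := h2 v
    obtain ⟨b, l1, l2, e⟩ := cs_of_dropLast hv
    exact ⟨b, l, hl, l1, l2, e⟩
  choose f hf using hex
  have hinj : Function.Injective f := by
    intro u v huv
    obtain ⟨l, hl, l1, l2, e⟩ := hf u
    obtain ⟨l', hl', l1', l2', e'⟩ := hf v
    rw [← huv] at e'
    exact uniq l hl l' hl' l1 u (f u) l2 l1' v l2' e e'
  refine ⟨Equiv.ofBijective f (Finite.injective_iff_bijective.1 hinj), ?_⟩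
  intro l hl l1 a b l2 e
  rw [Equiv.ofBijective_apply]
  obtain ⟨c, hc⟩ := (Finite.injective_iff_surjective.1 hinj) b
  obtain ⟨l', hl', l1', l2', e'⟩ := hf c
  rw [hc] at e'
  rw [uniq l hl l' hl' l1 a b l2 l1' c l2' e e', hc]

theorem same_head {σ : Perm V} : ∀ (l : List V) (x : V), (x :: l).IsChain (fun a b => σ a = b) →
    ∀ b ∈ x :: l, σ.SameCycle x b
  | [], x, _, b, hb => by
    rw [List.mem_singleton] at hb
    rw [hb]
  | y :: l, x, h, b, hb => by
    rw [List.isChain_cons_cons] at h
    rcases List.mem_cons.1 hb with rfl | hb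
    · exact Perm.SameCycle.refl _ _
    · have h1 := same_head l y h.2 b hb
      have h2 : σ.SameCycle x y := by
        rw [← h.1]
        exact Perm.sameCycle_apply_right.2 (Perm.SameCycle.refl _ _)
      exact h2.trans h1

theorem same_of_chain {σ : Perm V} {l : List V} (h : l.IsChain (fun a b => σ a = b)) {a b : V}
    (ha : a ∈ l) (hb : b ∈ l) : σ.SameCycle a b := by
  rcases l with _ | ⟨x, l⟩
  · simp at ha
  · exact (same_head l x h a ha).symm.trans (same_head l x h b hb)

/-- Using switches to merge circuits. -/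
theorem merge_all {D : Digraph V} (σ : Perm V) (harc : ∀ v, D.Adj v (σ v)) {ι : Type}
    [DecidableEq ι] (u v : ι → V) : ∀ T : Finset ι,
    (∀ k ∈ T, ∀ l ∈ T, (u k = u l → k = l) ∧ (v k = v l → k = l) ∧ u k ≠ v l) →
    (∀ k ∈ T, D.Adj (u k) (σ (v k)) ∧ D.Adj (v k) (σ (u k))) →
    ∃ τ : Perm V, (∀ w, D.Adj w (τ w)) ∧ (∀ w, (∀ k ∈ T, w ≠ u k ∧ w ≠ v k) → τ w = σ w) ∧
      (∀ k ∈ T, τ.SameCycle (u k) (v k)) ∧ (∀ a b, σ.SameCycle a b → τ.SameCycle a b) := by
  intro T
  induction T using Finset.induction_on with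
  | empty =>
    intro _ _
    exact ⟨σ, harc, fun _ _ => rfl, by simp, fun _ _ h => h⟩
  | insert k T hk ih =>
    intro hdis hadj
    obtain ⟨τ, h1, h2, h3, h4⟩ := ih
      (fun i hi j hj => hdis i (mem_insert_of_mem hi) j (mem_insert_of_mem hj))
      (fun i hi => hadj i (mem_insert_of_mem hi))
    have hne : ∀ j ∈ T, k ≠ j := by
      rintro j hj rfl
      exact hk hj
    have hu : τ (u k) = σ (u k) := by
      refine h2 _ fun j hj => ⟨fun h => ?_, ?_⟩
      · exact hne j hj ((hdis k (mem_insert_self _ _) j (mem_insert_of_mem hj)).1 h)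
      · exact (hdis k (mem_insert_self _ _) j (mem_insert_of_mem hj)).2.2
    have hv : τ (v k) = σ (v k) := by
      refine h2 _ fun j hj => ⟨fun h => ?_, fun h => ?_⟩
      · exact (hdis j (mem_insert_of_mem hj) k (mem_insert_self _ _)).2.2 h.symm
      · exact hne j hj ((hdis k (mem_insert_self _ _) j (mem_insert_of_mem hj)).2.1 h)
    by_cases hs : τ.SameCycle (u k) (v k)
    · refine ⟨τ, h1, fun w hw => h2 w fun j hj => hw j (mem_insert_of_mem hj), ?_, h4⟩
      intro j hj
      rcases mem_insert.1 hj with rfl | hj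
      · exact hs
      · exact h3 j hj
    · refine ⟨τ * swap (u k) (v k), ?_, ?_, ?_, ?_⟩
      · intro w
        by_cases hw1 : w = u k
        · rw [hw1, Perm.mul_apply, swap_apply_left, hv]
          exact (hadj k (mem_insert_self _ _)).1
        · by_cases hw2 : w = v k
          · rw [hw2, Perm.mul_apply, swap_apply_right, hu]
            exact (hadj k (mem_insert_self _ _)).2
          · rw [Perm.mul_apply, swap_apply_of_ne_of_ne hw1 hw2]
            exact h1 w
      · intro w hw
        have hw1 := hw k (mem_insert_self _ _)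
        rw [Perm.mul_apply, swap_apply_of_ne_of_ne hw1.1 hw1.2]
        exact h2 w fun j hj => hw j (mem_insert_of_mem hj)
      · intro j hj
        rcases mem_insert.1 hj with rfl | hj
        · exact Pool.A7T.merge_swap τ hs
        · exact Pool.A7T.merge_mono τ hs (h3 j hj)
      · intro a b hab
        exact Pool.A7T.merge_mono τ hs (h4 a b hab)

end Pool.A7S
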