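import Pool.Agent.Work.MP_a7fe73_co.Legs
import Pool.Agent.Work.MP_a7fe73_theta.Main

/-!
# The path partition theorem for digraphs
-/

set_option autoImplicit false
set_option linter.unusedSectionVars false

open Finset

namespace Pool.A7S

variable {V : Type} [DecidableEq V]

/-- `Ps` is a partition of `W` into paths of the relation `H`. -/
structure PP (H : V → V → Prop) (W : Finset V) (Ps : List (List V)) : Prop where
  ne : ∀ P ∈ Ps, P ≠ []
  chain : ∀ P ∈ Ps, P.IsChain H
  nodup : Ps.flatten.Nodup
  mem : ∀ v, v ∈ Ps.flatten ↔ v ∈ W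

/-- the first vertices -/
def heads (Ps : List (List V)) : List V := Ps.filterMap List.head?

omit [DecidableEq V] in
theorem heads_cons (a : V) (t : List V) (Ps : List (List V)) :
    heads ((a :: t) :: Ps) = a :: heads Ps := by simp [heads]

omit [DecidableEq V] in
theorem heads_length : ∀ Ps : List (List V), (∀ P ∈ Ps, P ≠ []) →
    (heads Ps).length = Ps.length
  | [], _ => rfl
  | [] :: _, h => absurd rfl (h [] (by simp))
  | (a :: t) :: Ps, h => by
    rw [heads_cons, List.length_cons, List.length_cons,
      heads_length Ps fun P hP => h P (List.mem_cons_of_mem _ hP)]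

omit [DecidableEq V] in
theorem heads_sublist : ∀ Ps : List (List V), (heads Ps).Sublist Ps.flatten
  | [] => List.Sublist.refl _
  | [] :: Ps => by
    have := heads_sublist Ps
    simpa [heads] using this
  | (a :: t) :: Ps => by
    rw [heads_cons, List.flatten_cons, List.cons_append]
    exact ((heads_sublist Ps).trans (List.sublist_append_right _ _)).cons_cons a

omit [DecidableEq V] in
theorem heads_perm {Ps Qs : List (List V)} (h : Ps.Perm Qs) : (heads Ps).Perm (heads Qs) :=
  h.filterMap _

omit [DecidableEq V] in
theorem mem_heads {Ps : List (List V)} {v : V} (h : v ∈ heads Ps) :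
    ∃ t Rs, Ps.Perm ((v :: t) :: Rs) := by
  rw [heads, List.mem_filterMap] at h
  obtain ⟨P, hP, hv⟩ := h
  rcases P with _ | ⟨a, t⟩
  · simp at hv
  · simp only [List.head?_cons, Option.some.injEq] at hv
    subst hv
    obtain ⟨l1, l2, rfl⟩ := List.append_of_mem hP
    exact ⟨t, l1 ++ l2, List.perm_middle⟩

namespace PP

variable {H : V → V → Prop} {W : Finset V} {Ps Qs : List (List V)}

theorem perm (h : PP H W Ps) (hp : Ps.Perm Qs) : PP H W Qs :=
  ⟨fun P hP => h.ne P (hp.mem_iff.2 hP), fun P hP => h.chain P (hp.mem_iff.2 hP),
    hp.flatten.nodup_iff.1 h.nodup, fun v => by rw [← hp.flatten.mem_iff]; exact h.mem v⟩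

theorem heads_nodup (h : PP H W Ps) : (heads Ps).Nodup := h.nodup.sublist (heads_sublist Ps)

theorem heads_mem (h : PP H W Ps) {v : V} (hv : v ∈ heads Ps) : v ∈ W :=
  (h.mem v).1 ((heads_sublist Ps).subset hv)

theorem uncons {v w : V} {t : List V} {Rs : List (List V)} (h : PP H W ((v :: w :: t) :: Rs)) :
    v ∈ W ∧ H v w ∧ PP H (W.erase v) ((w :: t) :: Rs) := by
  have hnd := h.nodup
  rw [List.flatten_cons, List.cons_append, List.nodup_cons] at hnd
  refine ⟨(h.mem v).1 (by simp), ?_, ?_, ?_, hnd.2, ?_⟩
  · have h1 := h.chain _ List.mem_cons_self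
    rw [List.isChain_cons_cons] at h1
    exact h1.1
  · intro P hP
    rcases List.mem_cons.1 hP with rfl | hP
    · simp
    · exact h.ne P (List.mem_cons_of_mem _ hP)
  · intro P hP
    rcases List.mem_cons.1 hP with rfl | hP
    · have h1 := h.chain _ List.mem_cons_self
      rw [List.isChain_cons_cons] at h1
      exact h1.2
    · exact h.chain P (List.mem_cons_of_mem _ hP)
  · intro x
    have e : ((v :: w :: t) :: Rs).flatten = v :: ((w :: t) :: Rs).flatten := rfl
    rw [mem_erase, ← h.mem x, e, List.mem_cons]
    constructor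
    · intro hx
      refine ⟨?_, Or.inr hx⟩
      rintro rfl
      exact hnd.1 hx
    · rintro ⟨h1, h2 | h2⟩
      · exact absurd h2 h1
      · exact h2

theorem uncons_one {v : V} {Rs : List (List V)} (h : PP H W ([v] :: Rs)) :
    v ∈ W ∧ PP H (W.erase v) Rs := by
  have hnd := h.nodup
  rw [List.flatten_cons, List.cons_append, List.nil_append, List.nodup_cons] at hnd
  refine ⟨(h.mem v).1 (by simp), fun P hP => h.ne P (List.mem_cons_of_mem _ hP),
    fun P hP => h.chain P (List.mem_cons_of_mem _ hP), hnd.2, ?_⟩
  intro x
  rw [mem_erase, ← h.mem x, List.flatten_cons, List.cons_append, List.nil_append, List.mem_cons]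
  constructor
  · intro hx
    refine ⟨?_, Or.inr hx⟩
    rintro rfl
    exact hnd.1 hx
  · rintro ⟨h1, h2 | h2⟩
    · exact absurd h2 h1
    · exact h2

theorem cons {v w : V} {t : List V} {Rs : List (List V)} (h : PP H W ((w :: t) :: Rs))
    (hv : v ∉ W) (hvw : H v w) : PP H (insert v W) ((v :: w :: t) :: Rs) := by
  refine ⟨?_, ?_, ?_, ?_⟩
  · intro P hP
    rcases List.mem_cons.1 hP with rfl | hP
    · simp
    · exact h.ne P (List.mem_cons_of_mem _ hP)
  · intro P hP
    rcases List.mem_cons.1 hP with rfl | hP
    · rw [List.isChain_cons_cons]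
      exact ⟨hvw, h.chain _ List.mem_cons_self⟩
    · exact h.chain P (List.mem_cons_of_mem _ hP)
  · rw [List.flatten_cons, List.cons_append, List.nodup_cons]
    refine ⟨?_, h.nodup⟩
    rw [← List.flatten_cons, h.mem]
    exact hv
  · intro x
    have e : ((v :: w :: t) :: Rs).flatten = v :: ((w :: t) :: Rs).flatten := rfl
    rw [mem_insert, ← h.mem x, e, List.mem_cons]

theorem cons_one {v : V} {Rs : List (List V)} (h : PP H W Rs)
    (hv : v ∉ W) : PP H (insert v W) ([v] :: Rs) := by
  refine ⟨?_, ?_, ?_, ?_⟩
  · intro P hP
    rcases List.mem_cons.1 hP with rfl | hP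
    · simp
    · exact h.ne P hP
  · intro P hP
    rcases List.mem_cons.1 hP with rfl | hP
    · exact List.isChain_singleton _
    · exact h.chain P hP
  · rw [List.flatten_cons, List.cons_append, List.nil_append, List.nodup_cons]
    refine ⟨?_, h.nodup⟩
    rw [h.mem]
    exact hv
  · intro x
    rw [mem_insert, ← h.mem x, List.flatten_cons, List.cons_append, List.nil_append,
      List.mem_cons]

end PP

/-- The induction step of the path partition theorem. -/
theorem gm_step (H : V → V → Prop) (s : ℕ) (W : Finset V) :
    (∀ S ⊆ W, (∀ a ∈ S, ∀ b ∈ S, a ≠ b → ¬ H a b) → S.card ≤ s) →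
    ∀ Ps, PP H W Ps → s < Ps.length →
    ∃ Ps', PP H W Ps' ∧ (∀ v ∈ heads Ps', v ∈ heads Ps) ∧ Ps'.length < Ps.length := by
  induction W using Finset.strongInduction with
  | H W ih =>
    intro hs Ps hP hlen
    obtain ⟨v₁, h₁, v₂, h₂, hne, hH⟩ : ∃ v₁ ∈ heads Ps, ∃ v₂ ∈ heads Ps, v₁ ≠ v₂ ∧ H v₁ v₂ := by
      by_contra hcon
      push Not at hcon
      have h1 := hs (heads Ps).toFinset (fun v hv => hP.heads_mem (List.mem_toFinset.1 hv))
        (fun a ha b hb hab => hcon a (List.mem_toFinset.1 ha) b (List.mem_toFinset.1 hb) hab)
      rw [List.toFinset_card_of_nodup hP.heads_nodup, heads_length _ hP.ne] at h1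
      omega
    obtain ⟨t₁, Rs₁, hp₁⟩ := mem_heads h₁
    have h₂' : v₂ ∈ heads Rs₁ := by
      have h1 := (heads_perm hp₁).mem_iff.1 h₂
      rw [heads_cons] at h1
      rcases List.mem_cons.1 h1 with h1 | h1
      · exact absurd h1.symm hne
      · exact h1
    obtain ⟨t₂, Rs, hp₂⟩ := mem_heads h₂'
    have hp : Ps.Perm ((v₁ :: t₁) :: (v₂ :: t₂) :: Rs) := hp₁.trans (hp₂.cons _)
    have hhead : ∀ v, v ∈ heads Ps ↔ v = v₁ ∨ v = v₂ ∨ v ∈ heads Rs := by
      intro v
      rw [(heads_perm hp).mem_iff, heads_cons, heads_cons, List.mem_cons, List.mem_cons]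
    have hlen' : Ps.length = Rs.length + 2 := by
      rw [hp.length_eq]; simp
    have hP' := hP.perm hp
    rcases t₁ with _ | ⟨v, t⟩
    · -- the first path is a single vertex
      obtain ⟨hv1, hP1⟩ := hP'.uncons_one
      have hP2 := hP1.cons (notMem_erase v₁ W) hH
      rw [insert_erase hv1] at hP2
      refine ⟨_, hP2, ?_, ?_⟩
      · intro x hx
        rw [heads_cons] at hx
        rw [hhead]
        rcases List.mem_cons.1 hx with h | h
        · exact Or.inl h
        · exact Or.inr (Or.inr h)
      · rw [hlen']; simp
    · obtain ⟨hv1, hvv, hP1⟩ := hP'.uncons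
      obtain ⟨Qs, hQ, hQh, hQl⟩ := ih (W.erase v₁) (erase_ssubset hv1)
        (fun S hS => hs S (hS.trans (erase_subset _ _))) _ hP1 (by
          rw [hlen'] at hlen
          simp only [List.length_cons]
          omega)
      have hQh' : ∀ x ∈ heads Qs, x = v ∨ x = v₂ ∨ x ∈ heads Rs := by
        intro x hx
        have h1 := hQh x hx
        rw [heads_cons, heads_cons, List.mem_cons, List.mem_cons] at h1
        exact h1
      have hQl' : Qs.length < Ps.length := by
        rw [hlen']
        simp only [List.length_cons] at hQl
        omega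
      by_cases hv : v ∈ heads Qs
      · obtain ⟨t', Rs', hq⟩ := mem_heads hv
        have hQ1 := (hQ.perm hq).cons (notMem_erase v₁ W) hvv
        rw [insert_erase hv1] at hQ1
        refine ⟨_, hQ1, ?_, ?_⟩
        · intro x hx
          rw [heads_cons] at hx
          rw [hhead]
          rcases List.mem_cons.1 hx with h | h
          · exact Or.inl h
          · have h1 : x ∈ heads Qs := by
              rw [(heads_perm hq).mem_iff, heads_cons]
              exact List.mem_cons_of_mem _ h
            have h2 : x ≠ v := by
              rintro rfl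
              have h3 := (hQ.perm hq).heads_nodup
              rw [heads_cons, List.nodup_cons] at h3
              exact h3.1 h
            rcases hQh' x h1 with h3 | h3
            · exact absurd h3 h2
            · exact Or.inr h3
        · have := hq.length_eq
          simp only [List.length_cons] at this ⊢
          omega
      · by_cases hv2 : v₂ ∈ heads Qs
        · obtain ⟨t', Rs', hq⟩ := mem_heads hv2
          have hQ1 := (hQ.perm hq).cons (notMem_erase v₁ W) hH
          rw [insert_erase hv1] at hQ1
          refine ⟨_, hQ1, ?_, ?_⟩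
          · intro x hx
            rw [heads_cons] at hx
            rw [hhead]
            rcases List.mem_cons.1 hx with h | h
            · exact Or.inl h
            · have h1 : x ∈ heads Qs := by
                rw [(heads_perm hq).mem_iff, heads_cons]
                exact List.mem_cons_of_mem _ h
              rcases hQh' x h1 with h3 | h3
              · rw [h3] at h1
                exact absurd h1 hv
              · exact Or.inr h3
          · have := hq.length_eq
            simp only [List.length_cons] at this ⊢
            omega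
        · have hQ1 := hQ.cons_one (notMem_erase v₁ W)
          rw [insert_erase hv1] at hQ1
          have hsub : ∀ x ∈ heads Qs, x ∈ heads Rs := by
            intro x hx
            rcases hQh' x hx with h | h | h
            · rw [h] at hx
              exact absurd hx hv
            · rw [h] at hx
              exact absurd hx hv2
            · exact h
          refine ⟨_, hQ1, ?_, ?_⟩
          · intro x hx
            rw [heads_cons] at hx
            rw [hhead]
            rcases List.mem_cons.1 hx with h | h
            · exact Or.inl h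
            · exact Or.inr (Or.inr (hsub x h))
          · have h1 : (heads Qs).length ≤ (heads Rs).length :=
              (List.subperm_of_subset hQ.heads_nodup hsub).length_le
            rw [heads_length _ hQ.ne] at h1
            have h2 : (heads Rs).length ≤ Rs.length := List.length_filterMap_le _ _
            rw [List.length_cons]
            omega

/-- **Path partition theorem** (Gallai and Milgram). -/
theorem gm (H : V → V → Prop) (s : ℕ) (W : Finset V)
    (hs : ∀ S ⊆ W, (∀ a ∈ S, ∀ b ∈ S, a ≠ b → ¬ H a b) → S.card ≤ s) :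
    ∃ Ps, PP H W Ps ∧ Ps.length ≤ s := by
  classical
  have hex : ∃ n, ∃ Ps, PP H W Ps ∧ Ps.length = n := by
    refine ⟨_, W.toList.map (fun v => [v]), ⟨?_, ?_, ?_, ?_⟩, rfl⟩
    · intro P hP
      rw [List.mem_map] at hP
      obtain ⟨v, _, rfl⟩ := hP
      simp
    · intro P hP
      rw [List.mem_map] at hP
      obtain ⟨v, _, rfl⟩ := hP
      exact List.isChain_singleton _
    · have : (W.toList.map (fun v => [v])).flatten = W.toList := by
        induction W.toList with
        | nil => simp
        | cons a l ih => simp [ih]
      rw [this]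
      exact W.nodup_toList
    · intro v
      simp
  obtain ⟨Ps, h1, h2⟩ := Nat.find_spec hex
  refine ⟨Ps, h1, ?_⟩
  by_contra hlt
  obtain ⟨Ps', h3, -, h4⟩ := gm_step H s W hs Ps h1 (by omega)
  exact Nat.find_min hex (m := Ps'.length) (by omega) ⟨Ps', h3, rfl⟩

end Pool.A7S
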