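import Pool.Agent.Work.MP_a7fe73_sq.GM

/-!
# Levels, threads and switches
-/

set_option autoImplicit false
set_option linter.unusedSectionVars false

open Finset

namespace Pool.A7S

open Pool.Agent.Work.MP_a7fe73_co

variable {V : Type} [DecidableEq V]

/-! ### consecutive members of a list -/

theorem cs_of_dropLast {l : List V} {a : V} (h : a ∈ l.dropLast) :
    ∃ b l1 l2, l = l1 ++ a :: b :: l2 := by
  have hne : l ≠ [] := by
    rintro rfl
    simp at h
  obtain ⟨p, q, hpq⟩ := List.append_of_mem h
  have h1 := List.dropLast_append_getLast hne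
  rw [hpq] at h1
  rcases q with _ | ⟨b, q⟩
  · exact ⟨_, p, [], by simpa using h1.symm⟩
  · exact ⟨b, p, q ++ [l.getLast hne], by simpa using h1.symm⟩

theorem cs_of_tail {l : List V} {b : V} (h : b ∈ l.tail) :
    ∃ a l1 l2, l = l1 ++ a :: b :: l2 := by
  rcases l with _ | ⟨x, t⟩
  · simp at h
  · rw [List.tail_cons] at h
    obtain ⟨p, q, rfl⟩ := List.append_of_mem h
    have hne : x :: p ≠ [] := List.cons_ne_nil _ _
    have h1 := List.dropLast_append_getLast hne
    refine ⟨(x :: p).getLast hne, (x :: p).dropLast, q, ?_⟩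
    calc x :: (p ++ b :: q) = ((x :: p).dropLast ++ [(x :: p).getLast hne]) ++ b :: q := by
          rw [h1]; rfl
      _ = _ := by simp

theorem tail_of_cs {l1 l2 : List V} {a b : V} : b ∈ (l1 ++ a :: b :: l2).tail := by
  cases l1 <;> simp

theorem chain_cs {R : V → V → Prop} {l1 l2 : List V} {a b : V}
    (h : (l1 ++ a :: b :: l2).IsChain R) : R a b := by
  rw [List.isChain_append_cons_cons] at h
  exact h.2.1

theorem chain_of_cs {R : V → V → Prop} : ∀ l : List V,
    (∀ l1 a b l2, l = l1 ++ a :: b :: l2 → R a b) → l.IsChain R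
  | [], _ => List.isChain_nil
  | [x], _ => List.isChain_singleton _
  | x :: y :: l, h => by
    rw [List.isChain_cons_cons]
    refine ⟨h [] x y l rfl, chain_of_cs (y :: l) fun l1 a b l2 e => h (x :: l1) a b l2 ?_⟩
    rw [e]
    rfl

/-! ### threads -/

theorem threads {G : SimpleGraph V} {s : ℕ} {W I J : Finset V} (hal : al G W ≤ s)
    (hI : I ⊆ W) (hIJ : Disjoint I J) (hI' : Ind G I) (hJ' : Ind G J) (hIs : I.card = s) :
    ∃ Ts : List (List V), PP G.Adj W Ts ∧ (∀ T ∈ Ts, ∃ z ∈ I, z ∈ T ∧ ∀ v ∈ T, v = z ∨ v ∈ T.dropLast) ∧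
      (∀ T ∈ Ts, ∀ a ∈ T.dropLast, a ∉ I) ∧ (∀ T ∈ Ts, ∀ b ∈ T.tail, b ∉ J) := by
  obtain ⟨Ts, hT, hlen⟩ := gm (fun a b => G.Adj a b ∧ a ∉ I ∧ b ∉ J) s W (by
    intro S hS hst
    refine (le_al hS ?_).trans hal
    intro a ha b hb hab
    have h1 := hst a ha b hb hab.ne
    have h2 := hst b hb a ha hab.ne'
    have h3 : a ∈ I ∨ b ∈ J := by
      by_contra hcon
      push Not at hcon
      exact h1 ⟨hab, hcon.1, hcon.2⟩
    have h4 : b ∈ I ∨ a ∈ J := by
      by_contra hcon
      push Not at hcon
      exact h2 ⟨hab.symm, hcon.1, hcon.2⟩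
    rcases h3 with h3 | h3 <;> rcases h4 with h4 | h4
    · exact hI' a h3 b h4 hab
    · exact disjoint_left.1 hIJ h3 h4
    · exact disjoint_left.1 hIJ h4 h3
    · exact hJ' a h4 b h3 hab)
  have hdrop : ∀ T ∈ Ts, ∀ a ∈ T.dropLast, a ∉ I := by
    intro T hTT a ha
    obtain ⟨b, l1, l2, e⟩ := cs_of_dropLast ha
    have h1 := hT.chain T hTT
    rw [e] at h1
    exact (chain_cs h1).2.1
  have htail : ∀ T ∈ Ts, ∀ b ∈ T.tail, b ∉ J := by
    intro T hTT b hb
    obtain ⟨a, l1, l2, e⟩ := cs_of_tail hb
    have h1 := hT.chain T hTT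
    rw [e] at h1
    exact (chain_cs h1).2.2
  have hPP : PP G.Adj W Ts :=
    ⟨hT.ne, fun P hP => (hT.chain P hP).imp fun a b h => h.1, hT.nodup, hT.mem⟩
  have hsub : I ⊆ (Ts.filterMap List.getLast?).toFinset := by
    intro i hi
    have h1 := (hT.mem i).2 (hI hi)
    rw [List.mem_flatten] at h1
    obtain ⟨T, hTT, hiT⟩ := h1
    rw [List.mem_toFinset, List.mem_filterMap]
    refine ⟨T, hTT, ?_⟩
    have hne := hT.ne T hTT
    rw [List.getLast?_eq_some_getLast hne]
    congr 1
    rw [← List.dropLast_append_getLast hne, List.mem_append, List.mem_singleton] at hiT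
    rcases hiT with h | h
    · exact absurd hi (hdrop T hTT i h)
    · exact h.symm
  have hcard : (Ts.filterMap List.getLast?).toFinset.card ≤ I.card := by
    rw [hIs]
    exact (List.toFinset_card_le _).trans ((List.length_filterMap_le _ _).trans hlen)
  have heq := Finset.eq_of_subset_of_card_le hsub hcard
  refine ⟨Ts, hPP, ?_, hdrop, htail⟩
  intro T hTT
  have hne := hT.ne T hTT
  refine ⟨T.getLast hne, ?_, List.getLast_mem hne, ?_⟩
  · rw [heq, List.mem_toFinset, List.mem_filterMap]
    exact ⟨T, hTT, List.getLast?_eq_some_getLast hne⟩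
  · intro v hv
    rw [← List.dropLast_append_getLast hne, List.mem_append, List.mem_singleton] at hv
    exact hv.symm

/-! ### levels -/

theorem levels (G : SimpleGraph V) : ∀ (a : ℕ) (S : Finset V), al G S ≤ a →
    a * (a + 1) < 2 * S.card →
    ∃ (s : ℕ) (Q I J : Finset V), 1 ≤ s ∧ s ≤ a ∧ Q ⊆ S ∧ I ⊆ S ∧ J ⊆ S ∧ Disjoint Q I ∧
      Disjoint Q J ∧ Disjoint I J ∧ Ind G I ∧ Ind G J ∧ I.card = s ∧ J.card = s ∧
      al G (S \ Q) ≤ s ∧ 2 * Q.card + s * (s + 1) ≤ a * (a + 1) := by
  intro a
  induction a with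
  | zero =>
    intro S hS hc
    have h1 : S.Nonempty := card_pos.1 (by omega)
    have := al_pos (G := G) h1
    omega
  | succ a ih =>
    intro S hS hc
    by_cases hSa : al G S ≤ a
    · obtain ⟨s, Q, I, J, h1, h2, h3⟩ := ih S hSa (by nlinarith)
      obtain ⟨h4, h5, h6, h7, h8, h9, h10, h11, h12, h13, h14, h15⟩ := h3
      exact ⟨s, Q, I, J, h1, by omega, h4, h5, h6, h7, h8, h9, h10, h11, h12, h13, h14,
        by nlinarith⟩
    · obtain ⟨I, hI, hI', hIc⟩ := exists_al G S
      have hIc' : I.card = a + 1 := by omega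
      by_cases hSI : al G (S \ I) ≤ a
      · have hcS : (S \ I).card + (a + 1) = S.card := by
          rw [← hIc', card_sdiff_add_card_eq_card hI]
        obtain ⟨s, Q, I', J, h1, h2, h3⟩ := ih (S \ I) hSI (by nlinarith)
        obtain ⟨h4, h5, h6, h7, h8, h9, h10, h11, h12, h13, h14, h15⟩ := h3
        refine ⟨s, Q ∪ I, I', J, h1, by omega, union_subset (h4.trans sdiff_subset) hI,
          h5.trans sdiff_subset, h6.trans sdiff_subset, ?_, ?_, h9, h10, h11, h12, h13, ?_, ?_⟩
        · rw [disjoint_union_left]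
          exact ⟨h7, disjoint_of_subset_right h5 disjoint_sdiff⟩
        · rw [disjoint_union_left]
          exact ⟨h8, disjoint_of_subset_right h6 disjoint_sdiff⟩
        · have e : S \ (Q ∪ I) = (S \ I) \ Q := by
            ext v
            simp only [mem_sdiff, mem_union]
            tauto
          rw [e]
          exact h14
        · have := card_union_le Q I
          nlinarith
      · obtain ⟨J, hJ, hJ', hJc⟩ := exists_al G (S \ I)
        have h1 : al G (S \ I) ≤ al G S := al_mono sdiff_subset
        refine ⟨a + 1, ∅, I, J, by omega, le_rfl, empty_subset _, hI, hJ.trans sdiff_subset,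
          disjoint_empty_left _, disjoint_empty_left _, ?_, hI', hJ', hIc', by omega, ?_, ?_⟩
        · exact disjoint_of_subset_right hJ disjoint_sdiff
        · rw [sdiff_empty]
          exact hS
        · simp

/-! ### switches -/

theorem star (G : SimpleGraph V) {a d : ℕ} {T : Finset V} (hal : al G T ≤ a)
    (hT : a + a * d < T.card) :
    ∃ m ∈ T, ∃ N : Finset V, N ⊆ T ∧ m ∉ N ∧ (∀ y ∈ N, G.Adj m y) ∧ d < N.card := by
  classical
  obtain ⟨M, hM, hM', hMc⟩ := exists_al G T
  have hdom : ∀ y : V, ∃ m, y ∈ T \ M → m ∈ M ∧ G.Adj m y := by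
    intro y
    by_cases hy : y ∈ T \ M
    · rw [mem_sdiff] at hy
      by_contra hcon
      push Not at hcon
      have hno : ∀ m ∈ M, ¬ G.Adj m y := fun m hm => (hcon m).2 hm
      have h1 := le_al (G := G) (S := insert y M) (U := T) (by
        intro z hz
        rcases mem_insert.1 hz with rfl | hz
        · exact hy.1
        · exact hM hz) (by
        intro u hu v hv huv
        rcases mem_insert.1 hu with h3 | h3 <;> rcases mem_insert.1 hv with h4 | h4
        · rw [h3, h4] at huv
          exact G.loopless.irrefl _ huv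
        · rw [h3] at huv
          exact hno v h4 huv.symm
        · rw [h4] at huv
          exact hno u h3 huv
        · exact hM' u h3 v h4 huv)
      rw [card_insert_of_notMem hy.2] at h1
      omega
    · exact ⟨y, fun h => absurd h hy⟩
  choose f hf using hdom
  have hcS : (T \ M).card + M.card = T.card := card_sdiff_add_card_eq_card hM
  have hMd : M.card * d ≤ a * d := Nat.mul_le_mul_right d (by omega)
  obtain ⟨m, hm, hmd⟩ := exists_lt_card_fiber_of_mul_lt_card_of_maps_to
    (s := T \ M) (t := M) (f := f) (n := d) (fun y hy => (hf y hy).1) (by omega)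
  refine ⟨m, hM hm, (T \ M).filter (fun y => f y = m), (filter_subset _ _).trans sdiff_subset,
    ?_, ?_, hmd⟩
  · intro h
    rw [mem_filter, mem_sdiff] at h
    exact h.1.2 hm
  · intro y hy
    rw [mem_filter] at hy
    rw [← hy.2]
    exact (hf y hy.1).2

theorem four (G : SimpleGraph V) {a : ℕ} {T : Finset V} (hal : al G T ≤ a)
    (hT : 2 * a ^ 2 + a < T.card) :
    ∃ u v u' v', u ∈ T ∧ v ∈ T ∧ u' ∈ T ∧ v' ∈ T ∧ u ≠ v ∧ u' ≠ v' ∧ G.Adj u u' ∧ G.Adj u v' ∧
      G.Adj v u' ∧ G.Adj v v' := by
  obtain ⟨m, hm, N, hN, hmN, hadj, hc⟩ := star G (d := 2 * a) hal (by nlinarith)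
  obtain ⟨x, hx, N', hN', hxN', hadj', hc'⟩ := star G (a := a) (d := 1) (T := N)
    ((al_mono hN).trans hal) (by omega)
  obtain ⟨y, hy, y', hy', hne⟩ := one_lt_card.1 hc'
  refine ⟨m, x, y, y', hm, hN hx, hN (hN' hy), hN (hN' hy'), ?_, hne, hadj _ (hN' hy),
    hadj _ (hN' hy'), hadj' _ hy, hadj' _ hy'⟩
  rintro rfl
  exact hmN hx

theorem switches [Fintype V] [Nonempty V] (G : SimpleGraph V) {ι : Type} [DecidableEq ι] {a : ℕ}
    (hal : al G univ ≤ a) (X : Finset V) : ∀ T : Finset ι,
    X.card + 4 * T.card + 2 * a ^ 2 + a ≤ Fintype.card V + 3 →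
    ∃ g : ι → Fin 4 → V, (∀ k ∈ T, ∀ l ∈ T, ∀ c d, g k c = g l d → k = l ∧ c = d) ∧
      (∀ k ∈ T, ∀ c, g k c ∉ X) ∧
      (∀ k ∈ T, G.Adj (g k 0) (g k 1) ∧ G.Adj (g k 0) (g k 3) ∧ G.Adj (g k 2) (g k 1) ∧
        G.Adj (g k 2) (g k 3)) := by
  classical
  intro T
  induction T using Finset.induction_on with
  | empty =>
    intro _
    obtain ⟨v₀⟩ := ‹Nonempty V›
    exact ⟨fun _ _ => v₀, by simp, by simp, by simp⟩
  | insert k T hk ih =>
    intro hc
    rw [card_insert_of_notMem hk] at hc
    obtain ⟨g, hg1, hg2, hg3⟩ := ih (by omega)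
    set Y : Finset V := X ∪ T.biUnion (fun k => univ.image (g k)) with hY
    have hYc : Y.card ≤ X.card + T.card * 4 := by
      refine (card_union_le _ _).trans (Nat.add_le_add_left ?_ _)
      refine card_biUnion_le_card_mul _ _ _ fun i _ => ?_
      exact card_image_le.trans (by simp)
    have hR : 2 * a ^ 2 + a < (univ \ Y).card := by
      have h1 : (univ \ Y).card + Y.card = Fintype.card V := by
        rw [card_sdiff_add_card_eq_card (subset_univ Y), card_univ]
      omega
    obtain ⟨u, v, u', v', hu, hv, hu', hv', huv, huv', e1, e2, e3, e4⟩ :=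
      four G ((al_mono (subset_univ _)).trans hal) hR
    have hnew : ∀ c : Fin 4, (![u, u', v, v'] : Fin 4 → V) c ∉ Y := by
      intro c
      rw [mem_sdiff] at hu hv hu' hv'
      fin_cases c
      · exact hu.2
      · exact hu'.2
      · exact hv.2
      · exact hv'.2
    have hinj : ∀ c d : Fin 4, (![u, u', v, v'] : Fin 4 → V) c = ![u, u', v, v'] d → c = d := by
      have n1 := e1.ne
      have n2 := e2.ne
      have n3 := e3.ne
      have n4 := e4.ne
      intro c d hcd
      fin_cases c <;> fin_cases d <;> first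
        | rfl
        | (exfalso
           revert hcd
           simp
           first
             | exact n1
             | exact n1.symm
             | exact n2
             | exact n2.symm
             | exact n3
             | exact n3.symm
             | exact n4
             | exact n4.symm
             | exact huv
             | exact huv.symm
             | exact huv'
             | exact huv'.symm)
    have hold : ∀ l ∈ T, ∀ c, g l c ∈ Y := by
      intro l hl c
      rw [hY, mem_union, mem_biUnion]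
      exact Or.inr ⟨l, hl, mem_image_of_mem _ (mem_univ c)⟩
    have hne : ∀ l ∈ T, l ≠ k := by
      rintro l hl rfl
      exact hk hl
    refine ⟨Function.update g k ![u, u', v, v'], ?_, ?_, ?_⟩
    · intro i hi j hj c d hcd
      rcases mem_insert.1 hi with hi' | hi' <;> rcases mem_insert.1 hj with hj' | hj'
      · rw [hi', hj', Function.update_self] at hcd
        exact ⟨hi'.trans hj'.symm, hinj c d hcd⟩
      · rw [hi', Function.update_self, Function.update_of_ne (hne j hj')] at hcd
        exact absurd (hcd ▸ hold j hj' d) (hnew c)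
      · rw [hj', Function.update_self, Function.update_of_ne (hne i hi')] at hcd
        exact absurd (hcd ▸ hold i hi' c) (hnew d)
      · rw [Function.update_of_ne (hne i hi'), Function.update_of_ne (hne j hj')] at hcd
        exact hg1 i hi' j hj' c d hcd
    · intro i hi c
      rcases mem_insert.1 hi with rfl | hi
      · rw [Function.update_self]
        intro h
        exact hnew c (mem_union_left _ h)
      · rw [Function.update_of_ne (hne i hi)]
        exact hg2 i hi c
    · intro i hi
      rcases mem_insert.1 hi with rfl | hi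
      · rw [Function.update_self]
        exact ⟨e1, e2, e3, e4⟩
      · rw [Function.update_of_ne (hne i hi)]
        exact hg3 i hi

end Pool.A7S
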