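import Pool.Agent.Work.MP_a7fe73_sq.Lev

/-!
# Wires
-/

set_option autoImplicit false
set_option linter.unusedSectionVars false

open Finset

namespace Pool.A7S

open Pool.Agent.Work.MP_a7fe73_co

variable {V : Type} [DecidableEq V] [Fintype V]

/-- A wire from `x` to `y` through the pieces `Bs`, with interior `M`. -/
structure IsWire (D : Digraph V) (R : Finset V) (x y : V) (Bs : List (List V)) (M : List V) :
    Prop where
  chain : (x :: (M ++ [y])).IsChain D.Adj
  nodup : M.Nodup
  mem : ∀ v ∈ M, v ∈ Bs.flatten ∨ v ∉ R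
  piece : ∀ B ∈ Bs, ∃ l1 l2, M = l1 ++ (B ++ l2)

theorem IsWire.piece_mem {D : Digraph V} {R : Finset V} {x y : V} {Bs : List (List V)}
    {M : List V} (h : IsWire D R x y Bs M) {v : V} (hv : v ∈ Bs.flatten) : v ∈ M := by
  rw [List.mem_flatten] at hv
  obtain ⟨B, hB, hv⟩ := hv
  obtain ⟨l1, l2, rfl⟩ := h.piece B hB
  simp [hv]

theorem wire {D : Digraph V} {a k : ℕ}
    (hst : ∀ X : Finset V, X.card < k → ∀ u v : V, u ∉ X → v ∉ X →
      Relation.ReflTransGen (fun a b => a ∉ X ∧ b ∉ X ∧ D.Adj a b) u v)
    (hal : al (digon D) univ ≤ a) (R : Finset V) (y : V) (hy : y ∈ R) :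
    ∀ (Bs : List (List V)) (x : V), x ∈ R → (∀ v ∈ Bs.flatten, v ∈ R) →
    (∀ B ∈ Bs, B ≠ [] ∧ B.IsChain D.Adj) → (x :: (Bs.flatten ++ [y])).Nodup →
    R.card + (Bs.length + 1) * (2 * a - 2) ≤ k →
    ∃ M : List V, IsWire D R x y Bs M ∧
      (M.toFinset \ R).card ≤ (Bs.length + 1) * (2 * a - 2) := by
  -- a single link
  have link : ∀ (N : Finset V) (x z : V), x ∈ R → z ∈ R → x ≠ z → N.card ≤ k →
      R ⊆ N → ∃ I : List V, (x :: (I ++ [z])).IsChain D.Adj ∧ I.Nodup ∧ (∀ v ∈ I, v ∉ N) ∧
        I.length ≤ 2 * a - 2 := by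
    intro N x z hx hz hxz hN hRN
    have hX : (N \ {x, z}).card < k := by
      have hsub : ({x, z} : Finset V) ⊆ N := by
        intro w hw
        rw [mem_insert, mem_singleton] at hw
        rcases hw with rfl | rfl
        · exact hRN hx
        · exact hRN hz
      have h1 := card_le_card hsub
      rw [card_pair hxz] at h1
      rw [card_sdiff_of_subset hsub, card_pair hxz]
      omega
    obtain ⟨I, h1, h2, h3, h4⟩ := leg hst hal hX (u := x) (v := z) (by simp) (by simp) hxz
    refine ⟨I, h2, ?_, ?_, by omega⟩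
    · have h5 := (List.nodup_cons.1 h1).2
      rw [List.nodup_append] at h5
      exact h5.1
    · intro v hv hvN
      apply h3 v hv
      rw [mem_sdiff, mem_insert, mem_singleton]
      refine ⟨hvN, ?_⟩
      rintro (rfl | rfl)
      · exact (List.nodup_cons.1 h1).1 (by simp [hv])
      · have h5 := (List.nodup_cons.1 h1).2
        rw [List.nodup_append] at h5
        exact h5.2.2 _ hv _ (by simp) rfl
  intro Bs
  induction Bs with
  | nil =>
    intro x hx hBR hBs hnd hk
    have hxy : x ≠ y := by
      rintro rfl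
      exact (List.nodup_cons.1 hnd).1 (by simp)
    rw [List.length_nil] at hk
    obtain ⟨I, h1, h2, h3, h4⟩ := link R x y hx hy hxy (by omega) (Subset.refl _)
    refine ⟨I, ⟨h1, h2, fun v hv => Or.inr (h3 v hv), by simp⟩, ?_⟩
    have h5 : (I.toFinset \ R).card ≤ I.toFinset.card := card_le_card sdiff_subset
    have h6 := List.toFinset_card_le I
    rw [List.length_nil]
    omega
  | cons B Bs ih =>
    intro x hx hBR hBs hnd hk
    obtain ⟨hBne, hBc⟩ := hBs B List.mem_cons_self
    have hBR' : ∀ v ∈ B, v ∈ R := fun v hv => hBR v (by simp [hv])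
    rw [List.length_cons] at hk ⊢
    have hmul : (Bs.length + 1 + 1) * (2 * a - 2) = (Bs.length + 1) * (2 * a - 2) + (2 * a - 2) := by
      ring
    rw [hmul] at hk ⊢
    -- the last and the first vertex of the piece
    obtain ⟨B', c, hB'⟩ : ∃ B' c, B = B' ++ [c] :=
      ⟨B.dropLast, B.getLast hBne, (List.dropLast_append_getLast hBne).symm⟩
    obtain ⟨b, t, hbt⟩ := List.exists_cons_of_ne_nil hBne
    have hc : c ∈ B := by rw [hB']; simp
    have hb : b ∈ B := by rw [hbt]; simp
    rw [List.flatten_cons] at hnd
    have hnd2 := (List.nodup_cons.1 hnd).2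
    have hnd3 : (c :: (Bs.flatten ++ [y])).Nodup := by
      rw [hB'] at hnd2
      have h1 : (B' ++ [c] ++ Bs.flatten ++ [y]) = B' ++ (c :: (Bs.flatten ++ [y])) := by simp
      rw [h1] at hnd2
      exact (List.nodup_append.1 hnd2).2.1
    obtain ⟨M, hM, hMc⟩ := ih c (hBR' c hc) (fun v hv => hBR v (by simp [hv]))
      (fun C hC => hBs C (List.mem_cons_of_mem _ hC)) hnd3 (by omega)
    have hxb : x ≠ b := by
      rintro rfl
      exact (List.nodup_cons.1 hnd).1 (by simp [hb])
    set N : Finset V := R ∪ M.toFinset with hN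
    have hNc : N.card ≤ R.card + (M.toFinset \ R).card := by
      have h1 : N = R ∪ (M.toFinset \ R) := by
        rw [hN, union_sdiff_self_eq_union]
      rw [h1]
      exact card_union_le _ _
    obtain ⟨I, h1, h2, h3, h4⟩ := link N x b hx (hBR' b hb) hxb (by omega) subset_union_left
    have h3R : ∀ v ∈ I, v ∉ R := fun v hv hvR => h3 v hv (mem_union_left _ hvR)
    have h3M : ∀ v ∈ I, v ∉ M := fun v hv hvM =>
      h3 v hv (mem_union_right _ (List.mem_toFinset.2 hvM))
    have hBnd : B.Nodup := by
      have h1 : (B ++ Bs.flatten ++ [y]) = B ++ (Bs.flatten ++ [y]) := by simp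
      rw [h1] at hnd2
      exact (List.nodup_append.1 hnd2).1
    have hBM : ∀ v ∈ B, v ∉ M := by
      intro v hv hvM
      rcases hM.mem v hvM with h | h
      · rw [List.append_assoc, List.nodup_append] at hnd2
        exact hnd2.2.2 v hv v (by simp [h]) rfl
      · exact h (hBR' v hv)
    refine ⟨I ++ (B ++ M), ⟨?_, ?_, ?_, ?_⟩, ?_⟩
    · have e1 : x :: (I ++ (B ++ M) ++ [y]) = (x :: I) ++ b :: (t ++ (M ++ [y])) := by
        rw [hbt]; simp
      have e2 : b :: (t ++ (M ++ [y])) = B' ++ c :: (M ++ [y]) := by
        have h5 : b :: (t ++ (M ++ [y])) = B ++ (M ++ [y]) := by rw [hbt]; simp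
        rw [h5, hB']
        simp
      rw [e1, List.isChain_split]
      refine ⟨by simpa using h1, ?_⟩
      rw [e2, List.isChain_split]
      refine ⟨?_, hM.chain⟩
      rw [← hB']
      exact hBc
    · rw [List.nodup_append]
      refine ⟨h2, ?_, ?_⟩
      · rw [List.nodup_append]
        refine ⟨hBnd, hM.nodup, ?_⟩
        rintro v hv w hw rfl
        exact hBM v hv hw
      · rintro v hv w hw rfl
        rcases List.mem_append.1 hw with h | h
        · exact h3R v hv (hBR' v h)
        · exact h3M v hv h
    · intro v hv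
      rcases List.mem_append.1 hv with h | h
      · exact Or.inr (h3R v h)
      · rcases List.mem_append.1 h with h | h
        · exact Or.inl (by simp [h])
        · rcases hM.mem v h with h | h
          · exact Or.inl (by rw [List.flatten_cons]; exact List.mem_append_right _ h)
          · exact Or.inr h
    · intro C hC
      rcases List.mem_cons.1 hC with rfl | hC
      · exact ⟨I, M, rfl⟩
      · obtain ⟨l1, l2, e⟩ := hM.piece C hC
        exact ⟨I ++ (B ++ l1), l2, by rw [e]; simp⟩
    · have h5 : (I ++ (B ++ M)).toFinset \ R ⊆ I.toFinset ∪ (M.toFinset \ R) := by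
        intro v hv
        rw [mem_sdiff, List.mem_toFinset, List.mem_append, List.mem_append] at hv
        rw [mem_union, mem_sdiff, List.mem_toFinset, List.mem_toFinset]
        rcases hv.1 with h | h | h
        · exact Or.inl h
        · exact absurd (hBR' v h) hv.2
        · exact Or.inr ⟨h, hv.2⟩
      have h6 := (card_le_card h5).trans (card_union_le _ _)
      have h7 := List.toFinset_card_le I
      omega

theorem wires {D : Digraph V} {a k : ℕ}
    (hst : ∀ X : Finset V, X.card < k → ∀ u v : V, u ∉ X → v ∉ X →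
      Relation.ReflTransGen (fun a b => a ∉ X ∧ b ∉ X ∧ D.Adj a b) u v)
    (hal : al (digon D) univ ≤ a) {ι : Type} [DecidableEq ι] (R : Finset V) (x y : ι → V)
    (Bs : ι → List (List V)) (hx : ∀ i, x i ∈ R) (hy : ∀ i, y i ∈ R)
    (hBR : ∀ i, ∀ v ∈ (Bs i).flatten, v ∈ R)
    (hBs : ∀ i, ∀ B ∈ Bs i, B ≠ [] ∧ B.IsChain D.Adj)
    (hnd : ∀ i, (x i :: ((Bs i).flatten ++ [y i])).Nodup)
    (hdis : ∀ i j v, v ∈ (Bs i).flatten → v ∈ (Bs j).flatten → i = j) :
    ∀ T : Finset ι, R.card + (∑ i ∈ T, ((Bs i).length + 1)) * (2 * a - 2) ≤ k →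
    ∃ M : ι → List V, (∀ i ∈ T, IsWire D R (x i) (y i) (Bs i) (M i)) ∧
      (∀ i ∈ T, ∀ j ∈ T, ∀ v, v ∈ M i → v ∈ M j → i = j) ∧
      ((T.biUnion fun i => (M i).toFinset) \ R).card ≤
        (∑ i ∈ T, ((Bs i).length + 1)) * (2 * a - 2) := by
  intro T
  induction T using Finset.induction_on with
  | empty =>
    intro _
    exact ⟨fun _ => [], by simp, by simp, by simp⟩
  | insert i T hi ih =>
    intro hk
    rw [sum_insert hi, add_mul] at hk
    obtain ⟨M, hM1, hM2, hM3⟩ := ih (by omega)
    set U : Finset V := T.biUnion fun i => (M i).toFinset with hU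
    have hNc : (R ∪ U).card ≤ R.card + (U \ R).card := by
      rw [← union_sdiff_self_eq_union]
      exact card_union_le _ _
    obtain ⟨N, hN, hNc'⟩ := wire hst hal (R ∪ U) (y i) (mem_union_left _ (hy i)) (Bs i) (x i)
      (mem_union_left _ (hx i)) (fun v hv => mem_union_left _ (hBR i v hv)) (hBs i) (hnd i)
      (by omega)
    have hne : ∀ j ∈ T, j ≠ i := by
      rintro j hj rfl
      exact hi hj
    have hUM : ∀ j ∈ T, ∀ v ∈ M j, v ∈ U := by
      intro j hj v hv
      rw [hU, mem_biUnion]
      exact ⟨j, hj, List.mem_toFinset.2 hv⟩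
    have hNM : ∀ j ∈ T, ∀ v, v ∈ N → v ∈ M j → False := by
      intro j hj v hv hv'
      rcases hN.mem v hv with h | h
      · rcases (hM1 j hj).mem v hv' with h' | h'
        · exact hne j hj (hdis j i v h' h)
        · exact h' (hBR i v h)
      · exact h (mem_union_right _ (hUM j hj v hv'))
    refine ⟨Function.update M i N, ?_, ?_, ?_⟩
    · intro j hj
      by_cases hji : j = i
      · subst hji
        rw [Function.update_self]
        refine ⟨hN.chain, hN.nodup, ?_, hN.piece⟩
        intro v hv
        rcases hN.mem v hv with h | h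
        · exact Or.inl h
        · exact Or.inr fun h' => h (mem_union_left _ h')
      · rw [Function.update_of_ne hji]
        rcases mem_insert.1 hj with h | h
        · exact absurd h hji
        · exact hM1 j h
    · intro j hj l hl v hv hv'
      by_cases hji : j = i <;> by_cases hli : l = i
      · rw [hji, hli]
      · rw [hji, Function.update_self] at hv
        rw [Function.update_of_ne hli] at hv'
        rcases mem_insert.1 hl with h | h
        · exact absurd h hli
        · exact absurd hv' fun h' => hNM l h v hv h'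
      · rw [hli, Function.update_self] at hv'
        rw [Function.update_of_ne hji] at hv
        rcases mem_insert.1 hj with h | h
        · exact absurd h hji
        · exact absurd hv fun h' => hNM j h v hv' h'
      · rw [Function.update_of_ne hji] at hv
        rw [Function.update_of_ne hli] at hv'
        rcases mem_insert.1 hj with h | h
        · exact absurd h hji
        · rcases mem_insert.1 hl with h' | h'
          · exact absurd h' hli
          · exact hM2 j h l h' v hv hv'
    · rw [sum_insert hi, add_mul]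
      have h5 : ((insert i T).biUnion fun j => (Function.update M i N j).toFinset) \ R ⊆
          (N.toFinset \ (R ∪ U)) ∪ (U \ R) := by
        intro v hv
        rw [mem_sdiff, mem_biUnion] at hv
        obtain ⟨⟨j, hj, hvj⟩, hvR⟩ := hv
        rw [mem_union, mem_sdiff, mem_sdiff, mem_union]
        by_cases hvU : v ∈ U
        · exact Or.inr ⟨hvU, hvR⟩
        · left
          by_cases hji : j = i
          · rw [hji, Function.update_self] at hvj
            exact ⟨hvj, fun h => h.elim hvR hvU⟩
          · rw [Function.update_of_ne hji, List.mem_toFinset] at hvj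
            rcases mem_insert.1 hj with h | h
            · exact absurd h hji
            · exact absurd (hUM j h v hvj) hvU
      have h6 := (card_le_card h5).trans (card_union_le _ _)
      omega

end Pool.A7S
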